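import Mathlib
import Pool.Agent.R481.RM.Win
import Pool.Agent.R528.RM.BHFinal

set_option autoImplicit false

/-!
# The largest numbers of members of windows in random models of the primes

We prove the model form of the equality `ρ(k) = max_m h_m(k)` in EVERY sequential random model of the
primes sieved by a fixed `Q`.  In these models the integers are decided one after the other, only
integers coprime to `Q` can be chosen, and the conditional probability of choosing `n + 1` (coprime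
to `Q`) given the past is asymptotic to `(Q / φ(Q)) / log n`; no independence is assumed.  Let `S` be
the random set and `ρ_S(k)` the limit superior of the number of elements of `S` in `(x, x + k]`.
Almost surely:

* `ρ_S(k) = max_m h_m(k)` for all `k` such that all primes `≤ k` divide `Q`, and for all `k` the number
  `ρ_S(k)` is the largest number of integers coprime to `Q` in a window of length `k`;
* for all large `x`, ALL windows `(m₀, m₀ + k]` and ALL sets `R` of integers coprime to `Q` in the window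
  with `|R| log log x + k / log x ≤ (1 - ε) log x` there is `m ≡ m₀ mod Q` in `[x / 2, x - k]` for which
  the set of the elements of `S` in `(m, m + k]` is exactly the translate of `R`;
* the value `ρ_S(k)` is attained by a window below `x` if `k ≤ (1 - ε) (Q / φ(Q)) log x / log log x`,
  and by no window starting below `x` if `k ≥ (1 + ε) (Q / φ(Q)) log x / log log x`.
-/

open MeasureTheory Filter
open scoped Topology

namespace Pool.Agent.Results.MP_cbf366_nt.WindowsInSievedModels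

/-- the number of elements of `S` in `(m, m + k]` -/
noncomputable def count (S : Set ℕ) (m k : ℕ) : ℕ := (S ∩ Set.Ioc m (m + k)).ncard

/-- `ρ(k)` for the set `S`: the limit superior of the number of elements of `S` in `(x, x + k]` -/
noncomputable def rho (S : Set ℕ) (k : ℕ) : ℕ := limsup (fun x : ℕ => count S x k) atTop

/-- the integers without a prime factor `≤ k`; the number `h_m(k)` is `count (sieved k) m k` -/
def sieved (k : ℕ) : Set ℕ := {n | ∀ p : ℕ, p.Prime → p ≤ k → ¬ p ∣ n}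

/-- the integers coprime to `Q` -/
def coprimes (Q : ℕ) : Set ℕ := {n | Nat.Coprime n Q}

open Pool.Agent.R481.RM

lemma fin_win (S : Set ℕ) (m k : ℕ) : (S ∩ Set.Ioc m (m + k)).Finite :=
  (Set.finite_Ioc m (m + k)).subset Set.inter_subset_right

lemma count_mono {S T : Set ℕ} (m k : ℕ) (h : S ⊆ T) : count S m k ≤ count T m k :=
  Set.ncard_le_ncard (Set.inter_subset_inter_left _ h) (fin_win T m k)

lemma count_le (S : Set ℕ) (m k : ℕ) : count S m k ≤ k := by
  have h := Set.ncard_le_ncard (s := S ∩ Set.Ioc m (m + k)) (t := Set.Ioc m (m + k))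
    Set.inter_subset_right (Set.finite_Ioc _ _)
  have h2 : (Set.Ioc m (m + k)).ncard = k := by
    rw [Set.ncard_eq_toFinset_card', Set.toFinset_Ioc, Nat.card_Ioc]
    omega
  rw [h2] at h
  exact h

lemma count_cop (Q m k : ℕ) : count (coprimes Q) m k = (copW Q m k).card := by
  rw [← Set.ncard_coe_finset]
  unfold count
  congr 1
  ext n
  simp only [Set.mem_inter_iff, Set.mem_Ioc, Finset.mem_coe, mem_copW, coprimes, Set.mem_ofPred_eq]
  tauto

/-- transfer of a part of a window into a set -/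
lemma count_ge_of_shift {S T : Set ℕ} {m₀ m k : ℕ}
    (h : ∀ i, 1 ≤ i → i ≤ k → m₀ + i ∈ T → m + i ∈ S) : count T m₀ k ≤ count S m k := by
  unfold count
  have himg : (fun n => n - m₀ + m) '' (T ∩ Set.Ioc m₀ (m₀ + k)) ⊆ S ∩ Set.Ioc m (m + k) := by
    rintro _ ⟨n, ⟨h1, h2, h3⟩, rfl⟩
    have h4 := h (n - m₀) (by omega) (by omega) (by rwa [Nat.add_sub_cancel' h2.le])
    refine ⟨by show n - m₀ + m ∈ S; rw [add_comm]; exact h4, ?_, ?_⟩
    · show m < n - m₀ + m
      omega
    · show n - m₀ + m ≤ m + k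
      omega
  refine le_trans (le_of_eq ?_) (Set.ncard_le_ncard himg (fin_win S m k))
  rw [Set.ncard_image_of_injOn]
  intro a ha b hb hab
  have h1 := ha.2.1
  have h2 := hb.2.1
  have h3 : a - m₀ + m = b - m₀ + m := hab
  omega

lemma rho_greatest {S T : Set ℕ} {k : ℕ} (hST : ∀ m, count S m k ≤ count T m k)
    (hf : ∀ m₀ X : ℕ, ∃ m, X ≤ m ∧ count T m₀ k ≤ count S m k) :
    IsGreatest (Set.range fun m => count T m k) (rho S k) := by
  have hb : BddAbove (Set.range fun m => count T m k) := by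
    refine ⟨k, ?_⟩
    rintro _ ⟨m, rfl⟩
    exact count_le T m k
  obtain ⟨M, hM⟩ : ∃ M, M = sSup (Set.range fun m => count T m k) := ⟨_, rfl⟩
  have hmem : M ∈ Set.range fun m => count T m k := by
    rw [hM]
    exact Nat.sSup_mem ⟨_, ⟨0, rfl⟩⟩ hb
  have hle : ∀ m, count T m k ≤ M := fun m => by
    rw [hM]
    exact le_csSup hb ⟨m, rfl⟩
  have hrho : rho S k = M := by
    unfold rho
    rw [Filter.limsup_eq]
    apply le_antisymm
    · exact Nat.sInf_le (Eventually.of_forall fun x => (hST x).trans (hle x))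
    · apply le_csInf
      · exact ⟨M, Eventually.of_forall fun x => (hST x).trans (hle x)⟩
      · intro b hb'
        obtain ⟨m₀, hm₀⟩ := hmem
        obtain ⟨X, hX⟩ := eventually_atTop.1 (show ∀ᶠ x in atTop, count S x k ≤ b from hb')
        obtain ⟨m, h1, h2⟩ := hf m₀ X
        have h3 := hX m h1
        have h4 : count T m₀ k = M := hm₀
        omega
  rw [hrho]
  refine ⟨hmem, ?_⟩
  rintro _ ⟨m, rfl⟩
  exact hle m

/-- a window modulo `Q` realising a given window sieved by the primes `≤ k` -/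
lemma exists_shift {Q : ℕ} (hQ : 0 < Q) (k m₀ : ℕ) :
    ∃ m₁, ∀ i, 1 ≤ i → i ≤ k → m₀ + i ∈ sieved k → Nat.Coprime (m₁ + i) Q := by
  classical
  set P : ℕ := ∏ p ∈ (Finset.range (k + 1)).filter Nat.Prime, p with hP
  set Q' : ℕ := ∏ p ∈ Q.primeFactors.filter (fun p => k < p), p with hQ'
  have hco : Nat.Coprime P Q' := by
    apply Nat.Coprime.prod_left
    intro p hp
    apply Nat.Coprime.prod_right
    intro q hq
    have hp' := Finset.mem_filter.1 hp
    have hq' := Finset.mem_filter.1 hq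
    rw [Nat.coprime_primes hp'.2 (Nat.prime_of_mem_primeFactors hq'.1)]
    have := Finset.mem_range.1 hp'.1
    have := hq'.2
    omega
  obtain ⟨m₁, h1, h2⟩ := Nat.chineseRemainder hco m₀ 0
  refine ⟨m₁, fun i hi hik hs => ?_⟩
  rw [Nat.coprime_iff_gcd_eq_one]
  by_contra hcon
  obtain ⟨p, hp, hpd⟩ := Nat.exists_prime_and_dvd hcon
  have hpm := hpd.trans (Nat.gcd_dvd_left _ _)
  have hpQ := hpd.trans (Nat.gcd_dvd_right _ _)
  by_cases hpk : p ≤ k
  · have hpP : p ∣ P := Finset.dvd_prod_of_mem _ (Finset.mem_filter.2 ⟨Finset.mem_range.2 (by omega), hp⟩)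
    have h3 : m₁ + i ≡ m₀ + i [MOD p] := Nat.ModEq.add_right i (h1.of_dvd hpP)
    exact hs p hp hpk ((Nat.ModEq.dvd_iff h3 dvd_rfl).1 hpm)
  · push Not at hpk
    have hpQ' : p ∣ Q' := Finset.dvd_prod_of_mem _
      (Finset.mem_filter.2 ⟨Nat.mem_primeFactors.2 ⟨hp, hpQ, hQ.ne'⟩, hpk⟩)
    have h3 : p ∣ m₁ := (Nat.modEq_zero_iff_dvd.1 h2) |> fun h => hpQ'.trans h
    have h4 : p ∣ i := (Nat.dvd_add_right h3).1 hpm
    have := Nat.le_of_dvd (by omega) h4
    omega

lemma sub_sieved {Q k : ℕ} (hk : ∀ p : ℕ, p.Prime → p ≤ k → p ∣ Q) : coprimes Q ⊆ sieved k := by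
  intro n hn p hp hpk hpn
  have h1 := Nat.dvd_gcd hpn (hk p hp hpk)
  have h2 : Nat.gcd n Q = 1 := hn
  rw [h2] at h1
  exact hp.one_lt.ne' (Nat.dvd_one.1 h1)

end Pool.Agent.Results.MP_cbf366_nt.WindowsInSievedModels

open Pool.Agent.Results.MP_cbf366_nt.WindowsInSievedModels
open Pool.Agent.R481.RM

/-- Let `A n` be the event that `n` belongs to a random set `S` adapted to a filtration `ℱ`, let
`Q ≥ 1`, let no integer which is not coprime to `Q` be chosen, and let the conditional probability of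
`A (n + 1)` given `ℱ n`, times `log n`, tend to `Q / φ(Q)` along the `n` with `n + 1` coprime to `Q`,
almost surely.  Then almost surely:
(1) for every `k` such that all primes `≤ k` divide `Q` the number `ρ_S(k)` is the maximum of the
`h_m(k)`; (2) for every `k` it is the largest number of integers coprime to `Q` in a window of length
`k`; (3) for every `ε > 0`, all large `x`, all `m₀`, `k` and all sets `R` of integers coprime to `Q` in
`(m₀, m₀ + k]` with `|R| log log x + k / log x ≤ (1 - ε) log x` there is `m ≡ m₀ mod Q` in `[x / 2, x - k]`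
for which `S ∩ (m, m + k]` is the translate of `R`; (4) for every `ε > 0`, all large `x` and all `k`,
the value `ρ_S(k)` is attained by a window in `[x / 2, x]` if `k log log x ≤ (1 - ε) (Q / φ(Q)) log x`,
and by no window starting below `x` if `k log log x ≥ (1 + ε) (Q / φ(Q)) log x`. -/
theorem Pool.Agent.Results.MP_cbf366_nt.WindowsInSievedModels.result
    {Ω : Type} [mΩ : MeasurableSpace Ω] (μ : Measure Ω) [IsProbabilityMeasure μ]
    (ℱ : Filtration ℕ mΩ) (A : ℕ → Set Ω) (hA : ∀ n, MeasurableSet[ℱ n] (A n))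
    (Q : ℕ) (hQ : 0 < Q) (hcop : ∀ n, ¬ Nat.Coprime n Q → A n = ∅)
    (hd : ∀ᵐ ω ∂μ, Tendsto (fun n : ℕ =>
      (μ[(A (n + 1)).indicator (fun _ => (1 : ℝ)) | ℱ n]) ω * Real.log n)
      (atTop ⊓ 𝓟 {n : ℕ | Nat.Coprime (n + 1) Q}) (𝓝 ((Q : ℝ) / Nat.totient Q))) :
    ∀ᵐ ω ∂μ,
      (∀ k : ℕ, (∀ p : ℕ, p.Prime → p ≤ k → p ∣ Q) →
        IsGreatest (Set.range fun m => count (sieved k) m k) (rho {n | ω ∈ A n} k)) ∧
      (∀ k : ℕ, IsGreatest (Set.range fun m => count (coprimes Q) m k) (rho {n | ω ∈ A n} k)) ∧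
      (∀ ε : ℝ, 0 < ε → ∀ᶠ x : ℕ in atTop, ∀ m₀ k : ℕ, ∀ R ⊆ coprimes Q ∩ Set.Ioc m₀ (m₀ + k),
        (R.ncard : ℝ) * Real.log (Real.log x) + k / Real.log x ≤ (1 - ε) * Real.log x →
        ∃ m, x ≤ 2 * m ∧ m + k ≤ x ∧ m ≡ m₀ [MOD Q] ∧
          ∀ i, 1 ≤ i → i ≤ k → (ω ∈ A (m + i) ↔ m₀ + i ∈ R)) ∧
      (∀ ε : ℝ, 0 < ε → ∀ᶠ x : ℕ in atTop, ∀ k : ℕ,
        ((k : ℝ) * Real.log (Real.log x) ≤ (1 - ε) * (Q / Nat.totient Q) * Real.log x →
          ∃ m, x ≤ 2 * m ∧ m + k ≤ x ∧ count {n | ω ∈ A n} m k = rho {n | ω ∈ A n} k) ∧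
        ((1 + ε) * (Q / Nat.totient Q) * Real.log x ≤ k * Real.log (Real.log x) →
          ∀ m ≤ x, count {n | ω ∈ A n} m k < rho {n | ω ∈ A n} k)) := by
  classical
  have hprof := Pool.Agent.R528.RM.dens_profile (μ := μ) (ℱ := ℱ) hA Q hQ hcop hd
  have hφ : (1 : ℝ) ≤ Nat.totient Q := by exact_mod_cast Nat.totient_pos.2 hQ
  have he : ∀ j : ℕ, 0 < 1 / ((j : ℝ) + 2) ∧ 1 / ((j : ℝ) + 2) < 1 := fun j => by
    refine ⟨by positivity, ?_⟩
    rw [div_lt_one (by positivity)]
    have : (0 : ℝ) ≤ j := Nat.cast_nonneg _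
    linarith
  have hsmall : ∀ ε : ℝ, 0 < ε → ∃ j : ℕ, 1 / ((j : ℝ) + 2) ≤ ε := by
    intro ε hε
    obtain ⟨m, hm⟩ := exists_nat_gt (1 / ε)
    rw [div_lt_iff₀ hε] at hm
    have hm0 : (0 : ℝ) ≤ m := Nat.cast_nonneg _
    refine ⟨m, ?_⟩
    rw [div_le_iff₀ (by positivity)]
    nlinarith
  have h1 := ae_all_iff.2 fun j : ℕ => pattern_law (μ := μ) (ℱ := ℱ) hA hQ hprof (he j).1 (he j).2
  have h2 := ae_all_iff.2 fun j : ℕ => full_exist (μ := μ) (ℱ := ℱ) hA hQ hprof (he j).1 (he j).2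
  have h3 := ae_all_iff.2 fun j : ℕ => full_never (μ := μ) (ℱ := ℱ) hA hQ hcop hprof (he j).1 (he j).2
  filter_upwards [h1, h2, h3] with ω g1 g2 g3
  obtain ⟨S, hS⟩ : ∃ S : Set ℕ, S = {n | ω ∈ A n} := ⟨_, rfl⟩
  rw [← hS]
  have hSm : ∀ n, ω ∈ A n ↔ n ∈ S := fun n => by rw [hS]; rfl
  simp only [hSm] at g1 g2 g3 ⊢
  have hSc : S ⊆ coprimes Q := by
    intro n hn
    by_contra hc
    have := hcop n hc
    rw [← hSm, this] at hn
    exact hn
  -- full windows recur
  have hfull : ∀ k m₀ X : ℕ, ∃ m, X ≤ m ∧ ∀ i, 1 ≤ i → i ≤ k → Nat.Coprime (m₀ + i) Q → m + i ∈ S := by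
    intro k m₀ X
    have hev : ∀ᶠ x : ℕ in atTop, (k : ℝ) * Real.log (Real.log x) ≤
        (1 - 1 / (((0 : ℕ) : ℝ) + 2)) * (Q / Nat.totient Q) * Real.log x := by
      have hq1 : (1 : ℝ) ≤ Q / Nat.totient Q := by
        rw [le_div_iff₀ (by linarith)]
        have : (Nat.totient Q : ℝ) ≤ Q := by exact_mod_cast Nat.totient_le Q
        linarith
      filter_upwards [loglog_small.eventually_lt_const (show (0 : ℝ) < 1 / (2 * (k + 1)) by positivity),
        Pool.Agent.R528.RM.ev_log 1,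
        (Real.tendsto_log_atTop.comp Pool.Agent.R528.RM.tendsto_log).eventually_ge_atTop 0] with x f1 f2 f3
      have f3' : 0 ≤ Real.log (Real.log x) := f3
      rw [div_lt_div_iff₀ (by linarith) (by positivity)] at f1
      have f4 : (k : ℝ) * Real.log (Real.log x) ≤ (1 / 2) * Real.log x := by nlinarith
      have f5 : (1 / 2 : ℝ) * Real.log x ≤ (1 - 1 / (((0 : ℕ) : ℝ) + 2)) * (Q / Nat.totient Q) * Real.log x := by
        apply mul_le_mul_of_nonneg_right _ (by linarith)
        push_cast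
        nlinarith
      linarith
    obtain ⟨x, f1, f2, f3⟩ := ((g2 0).and (hev.and (eventually_ge_atTop (2 * X)))).exists
    obtain ⟨m, e1, e2, e3, e4⟩ := f1 m₀ k f2
    refine ⟨m, by omega, fun i hi hik hc => e4 (m + i) (by omega) (by omega) ?_⟩
    refine (Pool.Agent.R528.RM.cop_shift ?_).2 hc
    show (m + i) % Q = (m₀ + i) % Q
    rw [Nat.add_mod, e3, ← Nat.add_mod]
  have hrho : ∀ k : ℕ, IsGreatest (Set.range fun m => count (coprimes Q) m k) (rho S k) := by
    intro k
    apply rho_greatest (fun m => count_mono m k hSc)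
    intro m₀ X
    obtain ⟨m, e1, e2⟩ := hfull k m₀ X
    exact ⟨m, e1, count_ge_of_shift e2⟩
  refine ⟨?_, hrho, ?_, ?_⟩
  · intro k hk
    apply rho_greatest (fun m => count_mono m k (hSc.trans (sub_sieved hk)))
    intro m₀ X
    obtain ⟨m₁, hm₁⟩ := exists_shift hQ k m₀
    obtain ⟨m, e1, e2⟩ := hfull k m₁ X
    exact ⟨m, e1, count_ge_of_shift fun i hi hik hs => e2 i hi hik (hm₁ i hi hik hs)⟩
  · intro ε hε
    obtain ⟨j, hj⟩ := hsmall ε hε
    filter_upwards [g1 j, Pool.Agent.R528.RM.ev_log 0] with x f1 f2 m₀ k R hR hc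
    have hfin : R.Finite := (fin_win (coprimes Q) m₀ k).subset hR
    obtain ⟨m, e1, e2, e3, e4⟩ := f1 m₀ k hfin.toFinset (fun n hn => by
      have hn' := hR (hfin.mem_toFinset.1 hn)
      exact ⟨hn'.2.1, hn'.2.2, hn'.1⟩) (by
        rw [← Set.ncard_eq_toFinset_card R hfin]
        refine hc.trans (mul_le_mul_of_nonneg_right (by linarith) f2))
    refine ⟨m, e1, e2, e3, fun i hi hik => ?_⟩
    rw [e4 i hi hik, hfin.mem_toFinset]
  · intro ε hε
    obtain ⟨j, hj⟩ := hsmall ε hε
    filter_upwards [g2 j, g3 j, Pool.Agent.R528.RM.ev_log 0] with x f1 f2 f3 k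
    have hq0 : (0 : ℝ) ≤ Q / Nat.totient Q := by positivity
    constructor
    · intro hk
      obtain ⟨⟨m₀, hm₀⟩, hmax⟩ := hrho k
      obtain ⟨m, e1, e2, e3, e4⟩ := f1 m₀ k (hk.trans (by
        apply mul_le_mul_of_nonneg_right _ f3
        exact mul_le_mul_of_nonneg_right (by linarith) hq0))
      refine ⟨m, e1, e2, le_antisymm ((count_mono m k hSc).trans (hmax ⟨m, rfl⟩)) ?_⟩
      rw [← show count (coprimes Q) m₀ k = rho S k from hm₀]
      apply count_ge_of_shift
      intro i hi hik hc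
      refine e4 (m + i) (by omega) (by omega) ((Pool.Agent.R528.RM.cop_shift ?_).2 hc)
      show (m + i) % Q = (m₀ + i) % Q
      rw [Nat.add_mod, e3, ← Nat.add_mod]
    · intro hk m hm
      obtain ⟨n, e1, e2, e3, e4⟩ := f2 k (le_trans (by
        apply mul_le_mul_of_nonneg_right _ f3
        exact mul_le_mul_of_nonneg_right (by linarith) hq0) hk) m hm
      refine lt_of_lt_of_le ?_ ((hrho k).2 ⟨m, rfl⟩)
      apply Set.ncard_lt_ncard _ (fin_win _ _ _)
      refine ⟨Set.inter_subset_inter_left _ hSc, fun hsub => ?_⟩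
      exact e4 (hsub ⟨e3, e1, e2⟩).1
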