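import Pool.Agent.R490.Win

set_option autoImplicit false

/-!
# Narrow progressions in arbitrary sets of windows with the maximal number of primes or rough integers
-/

namespace Pool.Agent.Results.MP_cbf366_nt.NarrowProgressions

open Finset Filter

open Classical in
/-- `h_m(k)`: the number of the integers in `(m, m + k]` without prime factor `≤ k`. -/
noncomputable def h (m k : ℕ) : ℕ :=
  ((Ioc m (m + k)).filter (fun n => ∀ p : ℕ, p.Prime → p ≤ k → ¬ p ∣ n)).card

open Classical in
/-- The number of the integers in `(x, x + k]` all of whose prime factors exceed `x ^ (1 / r)`. -/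
noncomputable def rough (r x k : ℕ) : ℕ :=
  ((Ioc x (x + k)).filter (fun n => ∀ p : ℕ, p.Prime → p ∣ n → (x : ℝ) ^ (1 / (r : ℝ)) < (p : ℝ))).card

/-- `x` is a term of an `l`-term arithmetic progression with difference at most `D`, all terms of which
are elements of `A` in `(X, Z]`. -/
def InProgression (A : Set ℕ) (l : ℕ) (D : ℝ) (X Z x : ℕ) : Prop :=
  ∃ s d : ℕ, 1 ≤ d ∧ (d : ℝ) ≤ D ∧ (∀ i < l, s + i * d ∈ A ∧ X < s + i * d ∧ s + i * d ≤ Z) ∧
    ∃ i < l, x = s + i * d

open Classical in
/-- **Narrow progressions of windows.** Let `K ≥ 1` be an upper bound for all `h_m(k)`, for instance their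
maximum, `θ, ε > 0` and `r, l ≥ 2`. There is an exponent `B` such that for all large `X`, all
`X ^ θ ≤ Y ≤ X` and EVERY set `A` of `x` for which `(x, x + k]` contains at least `K` integers all of whose prime
factors exceed `x ^ (1 / r)`, for instance every set of `x` for which `(x, x + k]` contains `K` primes: all but
at most `ε Y / (log X) ^ K` of the elements of `A` in `(X, X + Y]` are terms of `l`-term arithmetic
progressions with difference at most `(log X) ^ B` all terms of which are in `A` and in `(X, X + Y]`. -/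
theorem result (k K : ℕ) (hK1 : 1 ≤ K) (hK : ∀ m, h m k ≤ K) (θ : ℝ) (hθ : 0 < θ)
    (r : ℕ) (hr : 2 ≤ r) (l : ℕ) (hl : 2 ≤ l) (ε : ℝ) (hε : 0 < ε) :
    ∃ B : ℕ, ∀ᶠ X : ℕ in atTop, ∀ Y : ℕ, (X : ℝ) ^ θ ≤ Y → Y ≤ X →
      ∀ A : Set ℕ, (∀ x ∈ A, K ≤ rough r x k) →
        (((Ioc X (X + Y)).filter (fun x : ℕ =>
          x ∈ A ∧ ¬ InProgression A l (Real.log X ^ B) X (X + Y) x)).card : ℝ) ≤
        ε * (Y / Real.log X ^ K) := by
  obtain ⟨B, hB⟩ := Pool.Agent.R490.Wn.narrow k K hK1 hK θ hθ r hr l hl ε hε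
  refine ⟨B, ?_⟩
  filter_upwards [hB] with X hX Y hXY hYX A hA
  refine le_trans (le_of_eq ?_) (hX Y hXY hYX A hA)
  congr 2
  apply filter_congr
  intro m _
  unfold InProgression Pool.Agent.R490.Tu.InP
  simp only [Order.lt_add_one_iff]

end Pool.Agent.Results.MP_cbf366_nt.NarrowProgressions
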