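import Pool.Agent.R490.WinGap

set_option autoImplicit false

/-!
# Regular points of arbitrary sets of windows with many primes or rough integers
-/

namespace Pool.Agent.Results.MP_cbf366_nt.RegularPoints

open Finset Filter

open Classical in
/-- The positions in the window `(m, m + k]` of the `h_m(k)` integers without prime factor `≤ k`. -/
noncomputable def H (m k : ℕ) : Finset ℕ :=
  (Ioc 0 k).filter (fun h => ∀ p : ℕ, p.Prime → p ≤ k → ¬ p ∣ m + h)

/-- The integers at the same positions of the window `(x, x + k]` have no prime factor `≤ y`. -/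
def Rough (m k y x : ℕ) : Prop := ∀ p : ℕ, p.Prime → p ≤ y → ∀ h ∈ H m k, ¬ p ∣ x + h

open Classical in
/-- The density of these `x`: the product of `1 - w(p) / p` over the primes `p ≤ y`, where `w(p)` is the
number of the residues `x` modulo `p` with `p ∣ x + h` for some `h ∈ H m k`. -/
noncomputable def V (m k y : ℕ) : ℝ := ∏ p ∈ (Finset.range (y + 1)).filter Nat.Prime,
    (1 - (((Finset.range p).filter (fun x : ℕ => ∃ h ∈ H m k, p ∣ x + h)).card : ℝ) / p)

open Classical in
/-- The number of elements of `S` in `(a, b]`. -/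
noncomputable def count (S : Set ℕ) (a b : ℕ) : ℕ := ((Finset.Ioc a b).filter (fun m => m ∈ S)).card

/-- All intervals `(m - s, m + t]` with `s, t ≤ Y` of length at least `L / κ` contain between
`κ (s + t) / L` and `(s + t) / (κ L)` elements of `S`. -/
def RightOrder (S : Set ℕ) (L κ : ℝ) (Y m : ℕ) : Prop :=
  ∀ s t : ℕ, s ≤ Y → t ≤ Y → L ≤ κ * (s + t) →
    κ * (s + t) / L ≤ count S (m - s) (m + t) ∧ (count S (m - s) (m + t) : ℝ) ≤ (s + t) / (κ * L)

/-- Up to `δ`, `S` has a constant density on both sides of `m` up to the distance `2 ^ j`. -/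
def ConstantDensity (S : Set ℕ) (L κ δ : ℝ) (m j : ℕ) : Prop :=
  ∃ lam : ℝ, κ ≤ lam ∧ lam ≤ 1 / κ ∧ ∀ s t : ℕ, s ≤ 2 ^ j → t ≤ 2 ^ j →
    |(count S (m - s) (m + t) : ℝ) - lam * (s + t) / L| ≤ δ * 2 ^ j / L

open Classical in
/-- The number of the scales `L ≤ 2 ^ j ≤ Y` without this property. -/
noncomputable def badScales (S : Set ℕ) (L κ δ : ℝ) (Y m : ℕ) : ℕ :=
  ((Finset.range (Nat.log 2 Y + 1)).filter (fun j => L ≤ (2 : ℝ) ^ j ∧ ¬ ConstantDensity S L κ δ m j)).card

/-- The elements of `S` that are not regular points of `S`. -/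
def Irregular (S : Set ℕ) (L κ δ : ℝ) (M Y : ℕ) : Set ℕ :=
  {m | m ∈ S ∧ ¬ (RightOrder S L κ Y m ∧ badScales S L κ δ Y m ≤ M)}

open Classical in
/-- **Regular points.** Let `K ≥ 2`, `θ > 0`. There is `r0` such that for `r ≥ r0` and `ε > 0` there is `κ > 0`,
and for `δ > 0` there is `M`, such that for all large `X`, all `k ≤ X` and all `m` with `h_m(k) = K`, for
instance `K = max_m h_m(k)`, all intervals `(u, u + Y]` with `X ^ θ ≤ Y ≤ X`, `Y ≤ u`, and EVERY set `S` of integers
`x` for which the `K` integers in `(x, x + k]` at the positions `H m k` have no prime factor `≤ y = X ^ (1 / r)`, for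
instance any set of windows whose integers at these positions are primes `> y`: all but at most `ε Y V` of the
elements of `S` in `(u, u + Y]` are regular points of `S`: all intervals around them of length at least
`1 / (κ V)` and at most `Y` to each side contain the right order of elements of `S`, and `S` has a constant
density up to `δ` around them at all but `M` dyadic scales. -/
theorem result (K : ℕ) (hK : 2 ≤ K) (θ : ℝ) (hθ : 0 < θ) :
    ∃ r0 : ℕ, 2 ≤ r0 ∧ ∀ r : ℕ, r0 ≤ r → ∀ ε : ℝ, 0 < ε → ∃ κ : ℝ, 0 < κ ∧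
      ∀ δ : ℝ, 0 < δ → ∃ M : ℕ, ∀ᶠ X : ℕ in atTop, ∀ y : ℕ, y = ⌊(X : ℝ) ^ (1 / (r : ℝ))⌋₊ →
      ∀ m k : ℕ, (H m k).card = K → k ≤ X → ∀ u Y : ℕ, (X : ℝ) ^ θ ≤ Y → Y ≤ X → Y ≤ u →
      ∀ S : Set ℕ, (∀ x ∈ S, Rough m k y x) →
        (count (Irregular S (1 / V m k y) κ δ M Y) u (u + Y) : ℝ) ≤ ε * (Y * V m k y) := by
  obtain ⟨r0, hr0, h0⟩ := Pool.Agent.R490.Tu.regU K 1 hK θ hθ
  refine ⟨r0, hr0, fun r hr ε hε => ?_⟩
  obtain ⟨κ, hκ, h1⟩ := h0 r hr ε hε
  refine ⟨κ, hκ, fun δ hδ => ?_⟩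
  obtain ⟨M, h2⟩ := h1 δ hδ
  refine ⟨M, ?_⟩
  filter_upwards [h2] with X hX
  intro y hy m k hmk hkX u Y hY hYX hYu S hS
  have hsub : ∀ h ∈ H m k, 1 ≤ h ∧ h ≤ k := by
    intro h hh
    unfold H at hh
    rw [mem_filter, mem_Ioc] at hh
    omega
  refine hX (H m k) hmk (fun h hh => by rw [pow_one]; exact (hsub h hh).2.trans hkX) ?_ y hy u Y hY hYX hYu S hS
  intro p hp
  by_cases hpk : p ≤ k
  · refine ⟨m, fun h hh => ?_⟩
    unfold H at hh
    rw [mem_filter] at hh
    exact hh.2 p hp hpk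
  · refine ⟨0, fun h hh hd => ?_⟩
    have h1 := hsub h hh
    rw [zero_add] at hd
    have := Nat.le_of_dvd (by omega) hd
    omega

end Pool.Agent.Results.MP_cbf366_nt.RegularPoints
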