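import Pool.Agent.R490.WinGap

set_option autoImplicit false

/-!
# Windows with many rough integers: the law of the spacings
-/

namespace Pool.Agent.Results.MP_cbf366_nt.SpacingLaw

open Finset Filter

open Classical in
/-- The number of the integers in `(x, x + k]` without prime factor `≤ y`. For `y = k` this is `h_x(k)`. -/
noncomputable def rough (y x k : ℕ) : ℕ :=
  ((Ioc x (x + k)).filter (fun n => ∀ p : ℕ, p.Prime → p ≤ y → ¬ p ∣ n)).card

/-- `x` is in the class of `m` modulo the product of the primes `≤ k` and `(x, x + k]` contains at least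
`h_m(k)`, that is exactly `h_m(k)`, integers without prime factor `≤ y`. -/
def Window (m k y x : ℕ) : Prop := x % primorial k = m % primorial k ∧ rough k m k ≤ rough y x k

/-- The density of these `x`: with `h = h_m(k)`, the product of `1 - h / p` over the primes `k < p ≤ y`,
divided by the product of the primes `≤ k`. -/
noncomputable def V (m k y : ℕ) : ℝ :=
  (∏ p ∈ (Ioc k y).filter Nat.Prime, (1 - (rough k m k : ℝ) / p)) / primorial k

open Classical in
/-- The number of the `x` in `(u, u + Y]` with `Window m k y x` for which fewer than `l` of the `T` integers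
before `x` have this property, that is, for which the distance from `x` to the `l`-th preceding such window is
larger than `T`. -/
noncomputable def D (m k y l T u Y : ℕ) : ℕ :=
  ((Ioc u (u + Y)).filter (fun x => Window m k y x ∧
    ((Ico (x - T) x).filter (fun z => Window m k y z)).card < l)).card

open Classical in
/-- **The law of the spacings of the windows `(x, x + k]` with `h_m(k)` rough integers.** Let `k ≥ 3`, `m` with
`h_m(k) ≥ 1` (for instance the maximum), `θ > 0`. For all `l0`, `x0` and `ε > 0` there is `r0` such that for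
`r ≥ r0`, all large `X`, with `y = X ^ (1 / r)`, in EVERY interval `(u, u + Y]` with `Y ≥ X ^ θ` and `u ≥ m`: the
distances to the `l`-th preceding such window have, in units `1 / V` and up to `ε`, the distribution which
belongs to a Poisson process; for `l = 1` it is the exponential distribution. -/
theorem result (k m : ℕ) (hk : 3 ≤ k) (hm : 1 ≤ rough k m k) (θ : ℝ) (hθ : 0 < θ) (l0 : ℕ) (x0 ε : ℝ) (hε : 0 < ε) :
    ∃ r0 : ℕ, ∀ r : ℕ, r0 ≤ r → ∀ᶠ X : ℕ in atTop, ∀ y : ℕ, y = ⌊(X : ℝ) ^ (1 / (r : ℝ))⌋₊ →
      ∀ u Y : ℕ, m ≤ u → (X : ℝ) ^ θ ≤ Y → ∀ l T : ℕ, (l ≤ l0 ∨ T * V m k y ≤ x0) →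
        |(D m k y l T u Y : ℝ) - Y * V m k y *
            ∑ j ∈ range l, Real.exp (-(T * V m k y)) * (T * V m k y) ^ j / j.factorial| ≤
          ε * (Y * V m k y) := by
  obtain ⟨r0, h0⟩ := Pool.Agent.R490.Wn.gapWin k m hk hm θ hθ l0 x0 ε hε
  refine ⟨r0, fun r hr => ?_⟩
  filter_upwards [h0 r hr] with X hX
  intro y hy u Y hu hY l T hT
  subst hy
  exact hX u Y hu hY l T hT

end Pool.Agent.Results.MP_cbf366_nt.SpacingLaw
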